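import Pool.Agent.Helper24.HM.Final
import Pool.Agent.Helper3.XA.XY
import Pool.Agent.Helper16.CY.Elim

/-!
# Dynamics with several directions: the points are not contained in a subvariety of codimension two
-/

set_option autoImplicit false

namespace Pool.Agent.Helper69.HM

open Pool.Agent.Helper24.HN (V Loc Lin lst cst tri_le pow_two_le zpk_pos zpk_lt zpk_le)
open Pool.Agent.Helper24.HM Filter Topology
open Pool.Agent.Helper3.XA.Loop (Good Ev Lt flat lst_flat flat_length Hs mem_Hs phL phL_apply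
  phi_smul inv_of_vars near_limit)

variable {p : ℕ} [Fact p.Prime] {n : ℕ} {I : Type}

variable {L : LocM p n I} {J : Type} [DecidableEq J] {R : RefM L J}

/-- The derivative at the other zeros does not vanish. -/
theorem dF_ne {x1 : V p n} {ζ : J → ℤ_[p]} (h1 : ‖x1 - R.u0‖ ≤ (p : ℝ) ^ (-2 : ℤ))
    {a b : J} (hby : b ≠ R.y) (ha : ‖ζ a - R.z a‖ ≤ (p : ℝ) ^ (-2 : ℤ))
    (hb : ‖ζ b - R.z b‖ ≤ (p : ℝ) ^ (-2 : ℤ))
    (hab : a ≠ b) : L.dF x1 (L.xi (R.ty b) x1 (ζ b)) (ζ a) ≠ 0 := by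
  have h2 : ‖L.dF x1 (L.xi (R.ty b) x1 (ζ b)) (ζ a) -
      L.dF R.u0 (L.xi (R.ty b) R.u0 (R.z b)) (R.z a)‖ ≤
      (p : ℝ) ^ (-2 : ℤ) := L.dF_near _ _ _ _ _ _ h1 (xi_near R h1 hb) ha
  have h3 : ‖L.dF R.u0 (L.xi (R.ty b) R.u0 (R.z b)) (R.z a)‖ = 1 ∨
      ‖L.dF R.u0 (L.xi (R.ty b) R.u0 (R.z b)) (R.z a)‖ = (p : ℝ) ^ (-1 : ℤ) := by
    by_cases hj : a = R.j ∧ b = R.m
    · right
      rw [hj.1, hj.2]
      exact R.hs
    · left
      exact R.hT a b hab hby (by tauto)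
  intro h0
  rw [h0, zero_sub, norm_neg] at h2
  rcases h3 with h3 | h3
  · rw [h3] at h2
    exact absurd h2 (not_le.mpr pow_two_le)
  · rw [h3] at h2
    exact absurd h2 (not_le.mpr (zpk_lt (by norm_num)))

/-- The linear data at the limit point are good. -/
theorem good (M : MemsM L R) (x1 : V p n) (ζ : J → ℤ_[p])
    (h1 : ‖x1 - R.u0‖ ≤ (p : ℝ) ^ (-2 : ℤ)) (hA : L.A x1 = 0) (hB : L.B x1 = 0)
    (hC : L.C x1 = 0)
    (hz : ∀ a, a ≠ R.y → ‖ζ a - R.z a‖ ≤ (p : ℝ) ^ (-2 : ℤ) ∧ L.psi (R.ty a) x1 (ζ a) = 0)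
    (hsp : ⊤ ≤ Submodule.span ℚ_[p] ((lin L R.ty x1 ζ).v '' {a | a ≠ R.y})) :
    Good (lin L R.ty x1 ζ) R.y where
  diag := fun a ha => by
    have e : (lin L R.ty x1 ζ).phi ((ζ a : ℤ_[p]) : ℚ_[p]) (cst (L.xi (R.ty a) x1 (ζ a))) =
        ((L.dF x1 (L.xi (R.ty a) x1 (ζ a)) (ζ a) : ℤ_[p]) : ℚ_[p]) := lin_phi L R.ty x1 ζ _ _
    have e2 := M.rel (R.ty a) x1 (ζ a) h1 hA hB hC
    rw [(hz a ha).2] at e2
    rw [e2, PadicInt.coe_zero] at e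
    exact e
  off := fun a b ha hb hab => by
    have e : (lin L R.ty x1 ζ).phi ((ζ a : ℤ_[p]) : ℚ_[p]) (cst (L.xi (R.ty b) x1 (ζ b))) =
        ((L.dF x1 (L.xi (R.ty b) x1 (ζ b)) (ζ a) : ℤ_[p]) : ℚ_[p]) := lin_phi L R.ty x1 ζ _ _
    intro h0
    have h4 : ((L.dF x1 (L.xi (R.ty b) x1 (ζ b)) (ζ a) : ℤ_[p]) : ℚ_[p]) = 0 := e.symm.trans h0
    exact dF_ne (R := R) h1 hb (hz a ha).1 (hz b hb).1 hab (PadicInt.coe_eq_zero.1 h4)
  zne := fun a b ha hb hab => by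
    intro h0
    have h4 : ζ a = ζ b := PadicInt.ext h0
    have h5 : ‖R.z a - R.z b‖ ≤ (p : ℝ) ^ (-2 : ℤ) := by
      refine tri_le ((norm_sub_rev _ _).le.trans (hz a ha).1) ?_
      rw [h4]
      exact (hz b hb).1
    rw [R.hz a b hab] at h5
    exact absurd h5 (not_le.mpr pow_two_le)
  span := hsp

/-- The data at the limit point. -/
theorem ev_of (M : MemsM L R) (x1 : V p n) (ζ : J → ℤ_[p])
    (h1 : ‖x1 - R.u0‖ ≤ (p : ℝ) ^ (-2 : ℤ)) (hA : L.A x1 = 0) (hB : L.B x1 = 0)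
    (hC : L.C x1 = 0)
    (hz : ∀ a, a ≠ R.y → ‖ζ a - R.z a‖ ≤ (p : ℝ) ^ (-2 : ℤ) ∧ L.psi (R.ty a) x1 (ζ a) = 0)
    (hsp : ⊤ ≤ Submodule.span ℚ_[p] ((lin L R.ty x1 ζ).v '' {a | a ≠ R.y}))
    {e : Fin n → ℚ_[p]} {ρ : ℚ_[p]}
    (hel : (lin L R.ty x1 ζ).phi (ζ R.l) e = 0)
    (hej : (lin L R.ty x1 ζ).phi (ζ R.j) e = 0) (he : (lin L R.ty x1 ζ).ld e = 1)
    (hT : (lin L R.ty x1 ζ).Tp R.j [R.m, R.l, R.j] e = ρ • e) (hρ : ‖ρ‖ = (p : ℝ) ^ (-1 : ℤ)) :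
    Ev (lin L R.ty x1 ζ) R.y R.j R.l R.m e ρ where
  good := good M x1 ζ h1 hA hB hC hz hsp
  jy := R.hyj.symm
  ly := R.hyl.symm
  my := R.hym.symm
  jl := R.hlj.symm
  mj := R.hjm.symm
  ml := R.hml
  el := hel
  ej := hej
  e1 := he
  ev := hT
  r0 := by
    intro h0
    rw [h0, norm_zero] at hρ
    exact (zpk_pos (p := p) (-1)).ne hρ
  r1 := fun k hk h0 => by
    have h2 : ‖ρ ^ k‖ < 1 := by
      rw [norm_pow, hρ]
      refine pow_lt_one₀ (zpk_pos _).le ?_ hk.ne'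
      have := zpk_lt (p := p) (show (-1 : ℤ) < 0 by norm_num)
      rwa [zpow_zero] at this
    rw [h0, norm_one] at h2
    exact lt_irrefl _ h2

theorem okp_flat (w : List (Lt R.y R.j R.l)) : OkP R R.j (flat R.j R.l w) := by
  induction w with
  | nil => trivial
  | cons b w ih =>
    exact ⟨⟨b.2.2.1.symm, R.hyj.symm, b.2.1, Or.inl R.hjm⟩,
      ⟨b.2.2.2, b.2.1, R.hyl.symm, Or.inr R.hlj⟩,
      ⟨R.hlj, R.hyl.symm, R.hyj.symm, Or.inl R.hml.symm⟩, ih⟩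

variable {M : MemsM L R} {x1 : V p n} {ζ : J → ℤ_[p]} {e : Fin n → ℚ_[p]} {rho : ℚ_[p]}

/-- **(X)** A polynomial free of one variable does not vanish at all points. -/
theorem fin_x [Finite J] (E : Ev (lin L R.ty x1 ζ) R.y R.j R.l R.m e rho) (N0 : ℕ) (al : ℕ → ℚ_[p])
    (hal : ∀ N, al N ≠ 0) (hal0 : Tendsto al atTop (𝓝 0))
    (hX : ∀ P, OkP R R.j P → ∀ s : ℤ_[p], ∃ (X : ℕ → V p n) (u : ℕ → ℤ_[p]),
      (∀ N, M.Mem' (N0 + 3 * N + P.length) (X N) (u N)) ∧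
      Tendsto (fun N => (al N)⁻¹ • (cst (X N) - cst x1)) atTop
        (𝓝 ((lin L R.ty x1 ζ).Tp R.j P e - (s : ℚ_[p]) • (lin L R.ty x1 ζ).v (lst R.j P)))) :
    ∃ i : Fin n, ∀ D : MvPolynomial (Fin n) ℚ_[p], D ≠ 0 → i ∉ D.vars →
      ∃ N X u, ‖X - x1‖ ≤ (p : ℝ) ^ (-2 : ℤ) ∧ M.Mem' N X u ∧ MvPolynomial.eval (cst X) D ≠ 0 := by
  set D0 := lin L R.ty x1 ζ with hD0
  obtain ⟨i, hi⟩ : ∃ i : Fin n, D0.phi (D0.ζ R.j) (Pi.single i 1) ≠ 0 := by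
    by_contra hcon
    push Not at hcon
    apply E.good.off R.j R.l E.jy E.ly E.jl
    have : D0.v R.l = ∑ i, D0.v R.l i • (Pi.single i 1 : Fin n → ℚ_[p]) := by
      funext a; simp [Finset.sum_apply, Pi.single_apply]
    rw [this, ← phL_apply, map_sum]
    exact Finset.sum_eq_zero (fun i _ => by rw [map_smul, phL_apply, hcon, smul_zero])
  refine ⟨i, fun D hD hiD => ?_⟩
  by_contra hcon
  push Not at hcon
  obtain ⟨G, hG, hGinv, hGlim⟩ := Pool.Agent.Helper3.XA.LF D hD (cst x1)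
  -- the leading form vanishes at the points of the orbit
  have h1 : ∀ (w : List (Lt R.y R.j R.l)) (s : ℤ_[p]),
      MvPolynomial.eval (D0.Tp R.j (flat R.j R.l w) e - (s : ℚ_[p]) • D0.v R.j) G = 0 := by
    intro w s
    obtain ⟨X, u, hXu, hlim⟩ := hX _ (okp_flat w) s
    rw [lst_flat] at hlim
    refine hGlim _ al (fun N => cst (X N)) hal hal0 hlim ?_
    exact (near_limit al hal hal0 X _ hlim).frequently.mono
      (fun N hN => hcon _ _ _ hN (hXu N))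
  have h2 : ∀ (s : ℤ_[p]) (Y : Fin n → ℚ_[p]), D0.phi (D0.ζ R.l) Y = 0 →
      D0.phi (D0.ζ R.j) Y = 0 → MvPolynomial.eval (Y - (s : ℚ_[p]) • D0.v R.j) G = 0 := by
    intro s Y hY1 hY2
    have := E.dense G LinearMap.id (-((s : ℚ_[p]) • D0.v R.j)) (fun w => by
      rw [LinearMap.id_apply, ← sub_eq_add_neg]; exact h1 w s) hY1 hY2
    rwa [LinearMap.id_apply, ← sub_eq_add_neg] at this
  have h3 : ∀ (s : ℚ_[p]) (Y : Fin n → ℚ_[p]), D0.phi (D0.ζ R.l) Y = 0 →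
      D0.phi (D0.ζ R.j) Y = 0 → MvPolynomial.eval (Y - s • D0.v R.j) G = 0 := by
    intro s Y hY1 hY2
    have := Pool.Agent.Helper3.XA.Dens.line_zero G Y (-(D0.v R.j)) (Set.range (fun k : ℕ => (k : ℚ_[p])))
      (Set.infinite_range_of_injective Nat.cast_injective) (by
        rintro _ ⟨k, rfl⟩
        have := h2 (k : ℤ_[p]) Y hY1 hY2
        rw [smul_neg, ← sub_eq_add_neg]
        simpa using this) s
    rwa [smul_neg, ← sub_eq_add_neg] at this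
  have h4 : ∀ X : Fin n → ℚ_[p], D0.phi (D0.ζ R.j) X = 0 → MvPolynomial.eval X G = 0 := by
    intro X hX0
    have hne := E.good.off R.l R.j E.ly E.jy E.jl.symm
    set s := - D0.phi (D0.ζ R.l) X / D0.phi (D0.ζ R.l) (D0.v R.j) with hs
    have e1 : D0.phi (D0.ζ R.l) (X + s • D0.v R.j) = 0 := by
      have := map_add (phL D0 (D0.ζ R.l)) X (s • D0.v R.j)
      simp only [phL_apply] at this
      rw [this, phi_smul, hs]; field_simp; ring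
    have e2 : D0.phi (D0.ζ R.j) (X + s • D0.v R.j) = 0 := by
      have := map_add (phL D0 (D0.ζ R.j)) X (s • D0.v R.j)
      simp only [phL_apply] at this
      rw [this, phi_smul, hX0, E.good.diag R.j E.jy]; ring
    have := h3 s _ e1 e2
    rwa [add_sub_cancel_right] at this
  apply hG
  apply MvPolynomial.funext
  intro X
  rw [map_zero]
  have h5 := hGinv (Pi.single i 1) (inv_of_vars D i hiD) X
    (-(D0.phi (D0.ζ R.j) X / D0.phi (D0.ζ R.j) (Pi.single i 1)))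
  rw [← h5]
  apply h4
  have := map_add (phL D0 (D0.ζ R.j)) X
    ((-(D0.phi (D0.ζ R.j) X / D0.phi (D0.ζ R.j) (Pi.single i 1))) • (Pi.single i 1))
  simp only [phL_apply] at this
  rw [this, phi_smul]; field_simp; ring

/-- Summary: from one state, a polynomial free of one variable does not vanish at all points. -/
theorem free [Finite J] (M : MemsM L R) {i0 : J} {k1 N1 : ℕ} {s0 : ℤ_[p] → V p n}
    (h0 : StM M i0 R.j k1 N1 s0)
    (hsp : ∀ (x1 : V p n) (ζ : J → ℤ_[p]), ‖x1 - R.u0‖ ≤ (p : ℝ) ^ (-2 : ℤ) →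
      (∀ a, a ≠ R.y → ‖ζ a - R.z a‖ ≤ (p : ℝ) ^ (-2 : ℤ)) →
      ⊤ ≤ Submodule.span ℚ_[p] ((lin L R.ty x1 ζ).v '' {a | a ≠ R.y})) :
    ∃ i : Fin n, ∀ D : MvPolynomial (Fin n) ℚ_[p], D ≠ 0 → i ∉ D.vars →
      ∃ N X u, ‖X - R.u0‖ ≤ (p : ℝ) ^ (-2 : ℤ) ∧ M.Mem' N X u ∧
        MvPolynomial.eval (cst X) D ≠ 0 := by
  obtain ⟨x1, ζ, e, ρ, N0, al, h1, hA, hB, hC, hζ, hel, hej, he, hT, hρ, hal, hal0, hX, -⟩ :=
    dyn M h0
  have E := ev_of M x1 ζ h1 hA hB hC hζ (hsp x1 ζ h1 fun a ha => (hζ a ha).1) hel hej he hT hρ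
  obtain ⟨i, hi⟩ := fin_x E N0 al hal hal0 hX
  refine ⟨i, fun D hD hiD => ?_⟩
  obtain ⟨N, X, u, hX1, hM, hne⟩ := hi D hD hiD
  exact ⟨N, X, u, tri_le hX1 h1, hM, hne⟩

/-- Two coprime polynomials over a subfield do not vanish together at all points. -/
theorem nopair [Finite J] (M : MemsM L R) {i0 : J} {k1 N1 : ℕ} {s0 : ℤ_[p] → V p n}
    (h0 : StM M i0 R.j k1 N1 s0)
    (hsp : ∀ (x1 : V p n) (ζ : J → ℤ_[p]), ‖x1 - R.u0‖ ≤ (p : ℝ) ^ (-2 : ℤ) →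
      (∀ a, a ≠ R.y → ‖ζ a - R.z a‖ ≤ (p : ℝ) ^ (-2 : ℤ)) →
      ⊤ ≤ Submodule.span ℚ_[p] ((lin L R.ty x1 ζ).v '' {a | a ≠ R.y}))
    {K : Type} [Field K] [Algebra K ℚ_[p]] (F1 F2 : MvPolynomial (Fin n) K)
    (h12 : IsRelPrime F1 F2) :
    ∃ N X u, ‖X - R.u0‖ ≤ (p : ℝ) ^ (-2 : ℤ) ∧ M.Mem' N X u ∧
      (MvPolynomial.aeval (cst X) F1 ≠ 0 ∨ MvPolynomial.aeval (cst X) F2 ≠ 0) := by
  classical
  obtain ⟨i, hi⟩ := free M h0 hsp
  obtain ⟨r, hr, hz⟩ := Pool.Agent.Helper16.CY.exists_elim.{0, 0, 0} i h12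
  have h3 : MvPolynomial.map (algebraMap K ℚ_[p]) (MvPolynomial.rename Subtype.val r) ≠ 0 := by
    intro h4
    apply hr
    refine MvPolynomial.rename_injective _ Subtype.val_injective ?_
    refine MvPolynomial.map_injective _ (algebraMap K ℚ_[p]).injective ?_
    rw [h4, map_zero, map_zero]
  have h5 : i ∉ (MvPolynomial.map (algebraMap K ℚ_[p]) (MvPolynomial.rename Subtype.val r)).vars := by
    intro h4
    have h5 := MvPolynomial.vars_rename Subtype.val r (MvPolynomial.vars_map _ _ h4)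
    rw [Finset.mem_image] at h5
    obtain ⟨j, -, hj⟩ := h5
    exact j.2 hj
  obtain ⟨N, X, u, hX, hM, hne⟩ := hi _ h3 h5
  refine ⟨N, X, u, hX, hM, ?_⟩
  by_contra hcon
  push Not at hcon
  apply hne
  have h6 := hz ℚ_[p] (cst X) hcon.1 hcon.2
  rw [MvPolynomial.eval_map, ← MvPolynomial.aeval_def, MvPolynomial.aeval_rename]
  exact h6

end Pool.Agent.Helper69.HM
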